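import Mathlib

/-!
# Lattice points in thin shells of generic diagonal forms: definitions and interface
-/

set_option autoImplicit false

open MeasureTheory Filter Topology

namespace Pool.Agent.W99.KM

/-- `∑ l_i |m_i| ^ k`. -/
noncomputable def val {d : ℕ} (k : ℕ) (l : Fin d → ℝ) (m : Fin d → ℤ) : ℝ :=
  ∑ i, l i * |(m i : ℝ)| ^ k

/-- The box `[-Y, Y] ^ d`. -/
noncomputable def box (d Y : ℕ) : Finset (Fin d → ℤ) :=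
  Fintype.piFinset fun _ => Finset.Icc (-(Y : ℤ)) (Y : ℤ)

/-- The exponential sum `∑_{|x| ≤ Y} e(β |x| ^ k)`. -/
noncomputable def fsum (k Y : ℕ) (β : ℝ) : ℂ :=
  ∑ x ∈ Finset.Icc (-(Y : ℤ)) (Y : ℤ),
    Complex.exp (((2 * Real.pi * (β * |(x : ℝ)| ^ k) : ℝ) : ℂ) * Complex.I)

/-- The Gaussian average of width `s` at `t`. -/
noncomputable def gs {d : ℕ} (k Y : ℕ) (l : Fin d → ℝ) (s t : ℝ) : ℝ :=
  s⁻¹ * ∑ x ∈ box d Y, Real.exp (-Real.pi * ((val k l x - t) / s) ^ 2)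

/-- The integrand of the error term. -/
noncomputable def kern {d : ℕ} (k Y : ℕ) (s H : ℝ) (l : Fin d → ℝ) (α : ℝ) : ℝ :=
  (∏ i, ‖fsum k Y (l i * α)‖) *
    |Real.exp (-Real.pi * (s * α) ^ 2) - Real.exp (-Real.pi * (H * α) ^ 2)|

/-- The error term, uniform in `t`. -/
noncomputable def MM {d : ℕ} (k Y : ℕ) (s H : ℝ) (l : Fin d → ℝ) : ℝ :=
  ∫ α : ℝ, kern k Y s H l α

/-- The cube `[a, b] ^ d`. -/
def cube (d : ℕ) (a b : ℝ) : Set (Fin d → ℝ) := Set.pi Set.univ fun _ => Set.Icc a b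

/-- (P) the second moment of the exponential sum over a dilation. -/
def S_MOM : Prop := ∀ k : ℕ, 3 ≤ k → ∀ a b : ℝ, 0 < a → a < b → ∃ C : ℝ, 0 < C ∧
  ∀ Y : ℕ, 1 ≤ Y → ∀ α : ℝ, α ≠ 0 →
    ∫ l in a..b, ‖fsum k Y (l * α)‖ ^ 2 ≤
      C * (1 + Real.log Y) * (Y + |α| ^ (-(2 : ℝ) / k))

/-- (Q) the Gaussian averages of two widths differ at most by the error term. -/
def S_GAUSS : Prop := ∀ (d k Y : ℕ) (l : Fin d → ℝ) (s H t : ℝ), 0 < s → 0 < H →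
  |gs k Y l s t - gs k Y l H t| ≤ MM k Y s H l

/-- (R) the mean of the error term over the cube. -/
def S_MEAN : Prop := ∀ d k : ℕ, 3 ≤ k → 2 * k + 1 ≤ d → ∀ a b s : ℝ, 0 < a → a < b → 0 < s →
  ∃ C : ℝ, 0 < C ∧ ∃ U0 : ℕ, 1 ≤ U0 ∧ ∀ U : ℕ, U0 ≤ U →
    ∫⁻ l in cube d a b, ENNReal.ofReal (MM k (U ^ 4) s ((U : ℝ) ^ (4 * k - 2)) l) ≤
      ENNReal.ofReal (C * (1 + Real.log U) ^ d * (U : ℝ) ^ (4 * (d - k)) / U)

/-- (R') almost everywhere the error term is small along `Y = 16 ^ j`. -/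
def S_AE : Prop := ∀ d k : ℕ, 3 ≤ k → 2 * k + 1 ≤ d → ∀ a b s : ℝ, 0 < a → a < b → 0 < s →
  ∀ᵐ l ∂(volume.restrict (cube d a b)),
    Tendsto (fun j : ℕ => MM k ((2 ^ j) ^ 4) s (((2 ^ j : ℕ) : ℝ) ^ (4 * k - 2)) l /
      ((2 ^ j : ℕ) : ℝ) ^ (4 * (d - k))) atTop (𝓝 0)

/-- (V1) upper bound for the Gaussian averages of the long width, for all `t`. -/
def S_LONGUP : Prop := ∀ d k : ℕ, 2 ≤ k → k < d → ∀ a b : ℝ, 0 < a → a < b →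
  ∃ C : ℝ, 0 < C ∧ ∃ U0 : ℕ, ∀ U : ℕ, U0 ≤ U → ∀ l ∈ cube d a b, ∀ t : ℝ,
    gs k (U ^ 4) l ((U : ℝ) ^ (4 * k - 2)) t ≤ C * (U : ℝ) ^ (4 * (d - k))

/-- (V2) lower bound for the Gaussian averages of the long width. -/
def S_LONGLOW : Prop := ∀ d k : ℕ, 2 ≤ k → k < d → ∀ a b : ℝ, 0 < a → a < b →
  ∃ c : ℝ, 0 < c ∧ ∃ U0 : ℕ, ∀ U : ℕ, U0 ≤ U → ∀ l ∈ cube d a b, ∀ t : ℝ,
    a * (U : ℝ) ^ (4 * k) / (2 * 16 ^ k) ≤ t → t ≤ a * (U : ℝ) ^ (4 * k) →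
      c * (U : ℝ) ^ (4 * (d - k)) ≤ gs k (U ^ 4) l ((U : ℝ) ^ (4 * k - 2)) t

/-- The order of magnitude for all large `t` and all widths `w`. -/
def Order {d : ℕ} (k : ℕ) (l : Fin d → ℝ) : Prop := ∀ w : ℝ, 0 < w →
  ∃ c C t₀ : ℝ, 0 < c ∧ ∀ t : ℝ, t₀ ≤ t →
    {m : Fin d → ℤ | t ≤ val k l m ∧ val k l m < t + w}.Finite ∧
    c * t ^ ((d : ℝ) / k - 1) ≤ ({m : Fin d → ℤ | t ≤ val k l m ∧ val k l m < t + w}.ncard : ℝ) ∧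
    ({m : Fin d → ℤ | t ≤ val k l m ∧ val k l m < t + w}.ncard : ℝ) ≤ C * t ^ ((d : ℝ) / k - 1)

end Pool.Agent.W99.KM
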