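import Mathlib
import Pool.Agent.W99.KM.Defs

/-!
# The Gaussian averages of two widths differ at most by the error term
-/

set_option autoImplicit false

open MeasureTheory

namespace Pool.Agent.W99.KM

/-- the character `x ↦ e(x)` -/
noncomputable def ee (x : ℝ) : ℂ := Complex.exp (((2 * Real.pi * x : ℝ) : ℂ) * Complex.I)

lemma norm_ee (x : ℝ) : ‖ee x‖ = 1 := by
  unfold ee
  exact Complex.norm_exp_ofReal_mul_I _

lemma ee_sum {ι : Type*} (s : Finset ι) (f : ι → ℝ) : ee (∑ i ∈ s, f i) = ∏ i ∈ s, ee (f i) := by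
  unfold ee
  rw [← Complex.exp_sum]
  congr 1
  rw [Finset.mul_sum]
  push_cast
  rw [Finset.sum_mul]

lemma ee_add (x y : ℝ) : ee (x + y) = ee x * ee y := by
  unfold ee
  rw [← Complex.exp_add]
  congr 1
  push_cast
  ring

lemma fsum_eq (k Y : ℕ) (β : ℝ) :
    fsum k Y β = ∑ x ∈ Finset.Icc (-(Y : ℤ)) (Y : ℤ), ee (β * |(x : ℝ)| ^ k) := rfl

lemma prod_fsum {d : ℕ} (k Y : ℕ) (l : Fin d → ℝ) (α : ℝ) :
    ∏ i, fsum k Y (l i * α) = ∑ x ∈ box d Y, ee (α * val k l x) := by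
  simp_rw [fsum_eq]
  rw [Finset.prod_univ_sum]
  unfold box
  refine Finset.sum_congr rfl fun x _ => ?_
  rw [← ee_sum]
  congr 1
  unfold val
  rw [Finset.mul_sum]
  refine Finset.sum_congr rfl fun i _ => ?_
  ring

/-- the Fourier integral of a Gaussian -/
lemma gaussian_ft (s v : ℝ) (hs : 0 < s) :
    ∫ α : ℝ, (Real.exp (-Real.pi * (s * α) ^ 2) : ℂ) * ee (α * v) =
      ((s⁻¹ * Real.exp (-Real.pi * (v / s) ^ 2) : ℝ) : ℂ) := by
  have hb : 0 < ((Real.pi * s ^ 2 : ℝ) : ℂ).re := by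
    rw [Complex.ofReal_re]; positivity
  have h := fourierIntegral_gaussian (b := ((Real.pi * s ^ 2 : ℝ) : ℂ)) hb
    ((2 * Real.pi * v : ℝ) : ℂ)
  have e1 : (∫ α : ℝ, (Real.exp (-Real.pi * (s * α) ^ 2) : ℂ) * ee (α * v)) =
      ∫ x : ℝ, Complex.exp (Complex.I * ((2 * Real.pi * v : ℝ) : ℂ) * x) *
        Complex.exp (-((Real.pi * s ^ 2 : ℝ) : ℂ) * x ^ 2) := by
    congr 1
    funext α
    unfold ee
    rw [mul_comm, Complex.ofReal_exp]
    congr 1
    · congr 1
      push_cast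
      ring
    · congr 1
      push_cast
      ring
  rw [e1, h]
  have hpi : (Real.pi : ℝ) ≠ 0 := Real.pi_ne_zero
  have e2 : ((Real.pi : ℂ) / ((Real.pi * s ^ 2 : ℝ) : ℂ)) ^ (1 / 2 : ℂ) = ((s⁻¹ : ℝ) : ℂ) := by
    have : ((Real.pi : ℂ) / ((Real.pi * s ^ 2 : ℝ) : ℂ)) = (((s⁻¹) ^ 2 : ℝ) : ℂ) := by
      rw [← Complex.ofReal_div]
      congr 1
      field_simp
    rw [this]
    have h2 : (1 / 2 : ℂ) = ((1 / 2 : ℝ) : ℂ) := by push_cast; rfl
    rw [h2, ← Complex.ofReal_cpow (by positivity)]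
    congr 1
    rw [← Real.sqrt_eq_rpow, Real.sqrt_sq (by positivity)]
  have h4 : (-((2 * Real.pi * v : ℝ) : ℂ) ^ 2 / (4 * ((Real.pi * s ^ 2 : ℝ) : ℂ))) =
      ((-Real.pi * (v / s) ^ 2 : ℝ) : ℂ) := by
    have : -Real.pi * (v / s) ^ 2 = -(2 * Real.pi * v) ^ 2 / (4 * (Real.pi * s ^ 2)) := by
      field_simp
      ring
    rw [this]
    push_cast
    rfl
  rw [e2, h4, ← Complex.ofReal_exp, ← Complex.ofReal_mul]

lemma gaussian_integrable (s v : ℝ) (hs : 0 < s) :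
    Integrable (fun α : ℝ => (Real.exp (-Real.pi * (s * α) ^ 2) : ℂ) * ee (α * v)) := by
  have h1 : Integrable (fun α : ℝ => Real.exp (-(Real.pi * s ^ 2) * α ^ 2)) :=
    integrable_exp_neg_mul_sq (by positivity)
  have h2 : Integrable (fun α : ℝ => ((Real.exp (-Real.pi * (s * α) ^ 2) : ℝ) : ℂ)) := by
    have := h1.ofReal (𝕜 := ℂ)
    have e : (fun α : ℝ => ((Real.exp (-Real.pi * (s * α) ^ 2) : ℝ) : ℂ)) =
        fun α : ℝ => ((Real.exp (-(Real.pi * s ^ 2) * α ^ 2) : ℝ) : ℂ) := by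
      funext α
      congr 2
      ring
    rw [e]
    exact this
  refine h2.mul_bdd (c := 1) ?_ ?_
  · apply Continuous.aestronglyMeasurable
    unfold ee
    fun_prop
  · filter_upwards with α
    rw [norm_ee]

theorem gauss : S_GAUSS := by
  intro d k Y l s H t hs hH
  have key : ∀ w : ℝ, 0 < w →
      ((gs k Y l w t : ℝ) : ℂ) =
        ∫ α : ℝ, (Real.exp (-Real.pi * (w * α) ^ 2) : ℂ) *
          (ee (-(α * t)) * ∏ i, fsum k Y (l i * α)) := by
    intro w hw
    have e : ∀ α : ℝ, (Real.exp (-Real.pi * (w * α) ^ 2) : ℂ) *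
          (ee (-(α * t)) * ∏ i, fsum k Y (l i * α)) =
        ∑ x ∈ box d Y, (Real.exp (-Real.pi * (w * α) ^ 2) : ℂ) * ee (α * (val k l x - t)) := by
      intro α
      rw [prod_fsum, Finset.mul_sum, Finset.mul_sum]
      refine Finset.sum_congr rfl fun x _ => ?_
      rw [← ee_add]
      congr 2
      ring
    simp_rw [e]
    rw [integral_finsetSum _ fun x _ => gaussian_integrable w _ hw]
    simp_rw [gaussian_ft w _ hw]
    unfold gs
    rw [Finset.mul_sum]
    push_cast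
    rfl
  have hint : ∀ w : ℝ, 0 < w → Integrable fun α : ℝ =>
      (Real.exp (-Real.pi * (w * α) ^ 2) : ℂ) * (ee (-(α * t)) * ∏ i, fsum k Y (l i * α)) := by
    intro w hw
    have e : (fun α : ℝ => (Real.exp (-Real.pi * (w * α) ^ 2) : ℂ) *
          (ee (-(α * t)) * ∏ i, fsum k Y (l i * α))) = fun α =>
        ∑ x ∈ box d Y, (Real.exp (-Real.pi * (w * α) ^ 2) : ℂ) * ee (α * (val k l x - t)) := by
      funext α
      rw [prod_fsum, Finset.mul_sum, Finset.mul_sum]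
      refine Finset.sum_congr rfl fun x _ => ?_
      rw [← ee_add]
      congr 2
      ring
    rw [e]
    exact integrable_finsetSum _ fun x _ => gaussian_integrable w _ hw
  have h1 : ((gs k Y l s t - gs k Y l H t : ℝ) : ℂ) =
      ∫ α : ℝ, ((Real.exp (-Real.pi * (s * α) ^ 2) : ℂ) *
          (ee (-(α * t)) * ∏ i, fsum k Y (l i * α)) -
        (Real.exp (-Real.pi * (H * α) ^ 2) : ℂ) *
          (ee (-(α * t)) * ∏ i, fsum k Y (l i * α))) := by
    rw [integral_sub (hint s hs) (hint H hH), ← key s hs, ← key H hH]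
    push_cast
    rfl
  have h2 : |gs k Y l s t - gs k Y l H t| = ‖((gs k Y l s t - gs k Y l H t : ℝ) : ℂ)‖ := by
    rw [Complex.norm_real]
    rfl
  rw [h2, h1]
  refine (norm_integral_le_integral_norm _).trans (le_of_eq ?_)
  unfold MM kern
  congr 1
  funext α
  rw [← sub_mul, norm_mul, norm_mul, norm_ee, one_mul, norm_prod, mul_comm]
  congr 1
  rw [← Complex.ofReal_sub, Complex.norm_real]
  rfl

end Pool.Agent.W99.KM
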