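import Pool.Agent.W99.KM.Defs

/-!
# The second moment of the exponential sum over a dilation
-/

set_option autoImplicit false

open MeasureTheory Filter Topology Finset

namespace Pool.Agent.W99.KM

namespace MomP

/-- A sum over a symmetric interval of an even function. -/
theorem sum_symm (F : ℝ → ℂ) (Y : ℕ) :
    ∑ x ∈ Icc (-(Y : ℤ)) (Y : ℤ), F |(x : ℝ)| = F 0 + 2 * ∑ x ∈ Icc 1 Y, F (x : ℕ) := by
  induction Y with
  | zero => simp
  | succ n ih =>
    have h1 : Icc (-((n + 1 : ℕ) : ℤ)) ((n + 1 : ℕ) : ℤ) =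
        insert (-((n + 1 : ℕ) : ℤ)) (insert ((n + 1 : ℕ) : ℤ) (Icc (-(n : ℤ)) (n : ℤ))) := by
      ext x
      simp only [mem_Icc, mem_insert]
      push_cast
      omega
    rw [h1, sum_insert, sum_insert, ih, Finset.sum_Icc_succ_top (by omega)]
    · have h2 : |((-((n + 1 : ℕ) : ℤ) : ℤ) : ℝ)| = ((n + 1 : ℕ) : ℝ) := by
        push_cast
        rw [abs_neg, abs_of_nonneg (by positivity)]
      have h3 : |((((n + 1 : ℕ) : ℤ) : ℤ) : ℝ)| = ((n + 1 : ℕ) : ℝ) := by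
        push_cast
        rw [abs_of_nonneg (by positivity)]
      rw [h2, h3]
      ring
    · simp
    · simp only [mem_insert, mem_Icc, not_or]
      push_cast
      omega

/-- The integral of an additive character. -/
theorem norm_int_char {a b θ : ℝ} (hθ : θ ≠ 0) :
    ‖∫ l in a..b, Complex.exp (((2 * Real.pi * θ : ℝ) : ℂ) * Complex.I * l)‖ ≤
      1 / (Real.pi * |θ|) := by
  have hpi := Real.pi_pos
  have hc : ((2 * Real.pi * θ : ℝ) : ℂ) * Complex.I ≠ 0 :=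
    mul_ne_zero (Complex.ofReal_ne_zero.2 (by positivity)) Complex.I_ne_zero
  rw [integral_exp_mul_complex hc, norm_div, norm_mul, Complex.norm_I, mul_one, Complex.norm_real,
    Real.norm_eq_abs, abs_mul, abs_of_pos (by positivity : (0 : ℝ) < 2 * Real.pi)]
  have h1 : ∀ t : ℝ, ‖Complex.exp (((2 * Real.pi * θ : ℝ) : ℂ) * Complex.I * t)‖ = 1 := by
    intro t
    rw [show ((2 * Real.pi * θ : ℝ) : ℂ) * Complex.I * t =
      ((2 * Real.pi * θ * t : ℝ) : ℂ) * Complex.I by push_cast; ring]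
    exact Complex.norm_exp_ofReal_mul_I _
  have h2 : ‖Complex.exp (((2 * Real.pi * θ : ℝ) : ℂ) * Complex.I * b) -
      Complex.exp (((2 * Real.pi * θ : ℝ) : ℂ) * Complex.I * a)‖ ≤ 2 := by
    refine (norm_sub_le _ _).trans ?_
    rw [h1, h1]
    norm_num
  have h3 : 0 < |θ| := abs_pos.2 hθ
  rw [div_le_div_iff₀ (by positivity) (by positivity)]
  nlinarith [mul_pos hpi h3]

/-- Differences of powers. -/
theorem pow_diff {k : ℕ} (hk : 1 ≤ k) {x y : ℝ} (hx : 0 ≤ x) (hy : 0 ≤ y) :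
    |x - y| * x ^ (k - 1) ≤ |x ^ k - y ^ k| := by
  have h1 : (∑ i ∈ range k, x ^ i * y ^ (k - 1 - i)) * (x - y) = x ^ k - y ^ k :=
    (Commute.all x y).geom_sum₂_mul k
  rw [← h1, abs_mul, mul_comm]
  have h2 : x ^ (k - 1) ≤ ∑ i ∈ range k, x ^ i * y ^ (k - 1 - i) := by
    have h3 := single_le_sum (f := fun i => x ^ i * y ^ (k - 1 - i)) (s := range k)
      (fun i _ => by positivity) (mem_range.2 (by omega : k - 1 < k))
    simpa using h3
  have h4 : |∑ i ∈ range k, x ^ i * y ^ (k - 1 - i)| = ∑ i ∈ range k, x ^ i * y ^ (k - 1 - i) :=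
    abs_of_nonneg (sum_nonneg fun i _ => by positivity)
  rw [h4]
  gcongr

/-- The tail of the squares. -/
theorem tail_sq {W : ℝ} (hW : 0 < W) (Y : ℕ) :
    ∑ x ∈ (Icc 1 Y).filter (fun x : ℕ => W < x), 1 / (x : ℝ) ^ 2 ≤ 2 / W := by
  have key : ∀ Y : ℕ, ∑ x ∈ (Icc 1 Y).filter (fun x : ℕ => W < x), 1 / (x : ℝ) ^ 2 ≤
      max 0 (2 / W - 2 / (Y + 1)) := by
    intro Y
    induction Y with
    | zero => simp
    | succ n ih =>
      rw [sum_filter, Finset.sum_Icc_succ_top (by omega), ← sum_filter]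
      have hn0 : (0 : ℝ) < (n : ℝ) + 1 := by positivity
      have hn2 : (0 : ℝ) < (n : ℝ) + 2 := by positivity
      push_cast
      split_ifs with h
      · have h1 : 0 ≤ 2 / W - 2 / ((n : ℝ) + 1) := by
          rw [sub_nonneg]
          gcongr
        rw [max_eq_right h1] at ih
        refine le_max_of_le_right ?_
        have h2 : 1 / ((n : ℝ) + 1) ^ 2 ≤ 2 / ((n : ℝ) + 1) - 2 / ((n : ℝ) + 1 + 1) := by
          rw [div_sub_div _ _ hn0.ne' (by positivity), div_le_div_iff₀ (by positivity)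
            (by positivity)]
          nlinarith
        linarith
      · push Not at h
        have h1 : 2 / W - 2 / ((n : ℝ) + 1) ≤ 0 := by
          rw [sub_nonpos]
          gcongr
        rw [max_eq_left h1] at ih
        rw [add_zero]
        exact ih.trans (le_max_left _ _)
  refine (key Y).trans (max_le (by positivity) ?_)
  have : 0 ≤ 2 / ((Y : ℝ) + 1) := by positivity
  linarith

/-- The harmonic sum around a point. -/
theorem harm_sum {Y : ℕ} (x : ℕ) (hx : x ∈ Icc 1 Y) :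
    ∑ y ∈ (Icc 1 Y).erase x, 1 / |(x : ℝ) - y| ≤ 2 * (1 + Real.log Y) := by
  rw [mem_Icc] at hx
  have hY : (1 : ℝ) ≤ Y := by exact_mod_cast hx.1.trans hx.2
  have hH : ∀ n : ℕ, n ≤ Y → ∑ i ∈ Icc 1 n, 1 / (i : ℝ) ≤ 1 + Real.log Y := by
    intro n hn
    have h1 : ∑ i ∈ Icc 1 n, 1 / (i : ℝ) ≤ ∑ i ∈ Icc 1 Y, 1 / (i : ℝ) :=
      sum_le_sum_of_subset_of_nonneg (Icc_subset_Icc_right hn) fun i _ _ => by positivity
    have h2 := harmonic_le_one_add_log Y
    rw [harmonic_eq_sum_Icc] at h2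
    push_cast at h2
    simp only [one_div] at h1 ⊢
    exact h1.trans h2
  have hsub : (Icc 1 Y).erase x ⊆ Icc 1 (x - 1) ∪ Icc (x + 1) Y := by
    intro y hy
    rw [mem_erase, mem_Icc] at hy
    rw [mem_union, mem_Icc, mem_Icc]
    omega
  have h3 : ∑ y ∈ Icc 1 (x - 1), 1 / |(x : ℝ) - y| = ∑ i ∈ Icc 1 (x - 1), 1 / (i : ℝ) := by
    refine sum_nbij' (fun y => x - y) (fun i => x - i) ?_ ?_ ?_ ?_ ?_
    · intro y hy
      rw [mem_Icc] at hy ⊢
      omega
    · intro y hy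
      rw [mem_Icc] at hy ⊢
      omega
    · intro y hy
      rw [mem_Icc] at hy
      omega
    · intro y hy
      rw [mem_Icc] at hy
      omega
    · intro y hy
      rw [mem_Icc] at hy
      have : y ≤ x := by omega
      have h4 : (y : ℝ) ≤ x := by exact_mod_cast this
      rw [Nat.cast_sub this, abs_of_nonneg (by linarith)]
  have h5 : ∑ y ∈ Icc (x + 1) Y, 1 / |(x : ℝ) - y| = ∑ i ∈ Icc 1 (Y - x), 1 / (i : ℝ) := by
    refine sum_nbij' (fun y => y - x) (fun i => x + i) ?_ ?_ ?_ ?_ ?_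
    · intro y hy
      rw [mem_Icc] at hy ⊢
      omega
    · intro y hy
      rw [mem_Icc] at hy ⊢
      omega
    · intro y hy
      rw [mem_Icc] at hy
      omega
    · intro y hy
      rw [mem_Icc] at hy
      omega
    · intro y hy
      rw [mem_Icc] at hy
      have : x ≤ y := by omega
      have h4 : (x : ℝ) ≤ y := by exact_mod_cast this
      rw [Nat.cast_sub this, abs_sub_comm, abs_of_nonneg (by linarith)]
  calc ∑ y ∈ (Icc 1 Y).erase x, 1 / |(x : ℝ) - y|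
      ≤ ∑ y ∈ Icc 1 (x - 1) ∪ Icc (x + 1) Y, 1 / |(x : ℝ) - y| :=
        sum_le_sum_of_subset_of_nonneg hsub fun y _ _ => by positivity
    _ ≤ ∑ y ∈ Icc 1 (x - 1), 1 / |(x : ℝ) - y| + ∑ y ∈ Icc (x + 1) Y, 1 / |(x : ℝ) - y| := by
        have hd : Disjoint (Icc 1 (x - 1)) (Icc (x + 1) Y) := by
          rw [disjoint_left]
          intro y hy hy'
          rw [mem_Icc] at hy hy'
          omega
        rw [sum_union hd]
    _ ≤ (1 + Real.log Y) + (1 + Real.log Y) := by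
        rw [h3, h5]
        exact add_le_add (hH _ (by omega)) (hH _ (by omega))
    _ = 2 * (1 + Real.log Y) := by ring

/-- The second moment of an exponential sum over a set of integers. -/
theorem second_moment (S : Finset ℕ) (ph : ℕ → ℝ) {a b : ℝ} (hab : a ≤ b) :
    ∫ l in a..b, ‖∑ x ∈ S, Complex.exp (((2 * Real.pi * (l * ph x) : ℝ) : ℂ) * Complex.I)‖ ^ 2 ≤
      ∑ x ∈ S, ∑ y ∈ S, ‖∫ l in a..b, Complex.exp (((2 * Real.pi * (ph x - ph y) : ℝ) : ℂ) *
        Complex.I * l)‖ := by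
  have h1 : ∀ l : ℝ, ((‖∑ x ∈ S, Complex.exp (((2 * Real.pi * (l * ph x) : ℝ) : ℂ) *
      Complex.I)‖ ^ 2 : ℝ) : ℂ) = ∑ x ∈ S, ∑ y ∈ S,
      Complex.exp (((2 * Real.pi * (ph x - ph y) : ℝ) : ℂ) * Complex.I * l) := by
    intro l
    push_cast
    rw [← Complex.mul_conj', map_sum, sum_mul_sum]
    refine sum_congr rfl fun x _ => sum_congr rfl fun y _ => ?_
    rw [← Complex.exp_conj, ← Complex.exp_add]
    congr 1
    simp only [map_mul, Complex.conj_I, Complex.conj_ofReal]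
    push_cast
    simp only [map_mul, Complex.conj_ofReal, map_ofNat]
    ring
  have h2 : ((∫ l in a..b, ‖∑ x ∈ S, Complex.exp (((2 * Real.pi * (l * ph x) : ℝ) : ℂ) *
      Complex.I)‖ ^ 2 : ℝ) : ℂ) = ∑ x ∈ S, ∑ y ∈ S,
      ∫ l in a..b, Complex.exp (((2 * Real.pi * (ph x - ph y) : ℝ) : ℂ) * Complex.I * l) := by
    rw [← intervalIntegral.integral_ofReal]
    simp_rw [h1]
    rw [intervalIntegral.integral_finsetSum]
    · refine sum_congr rfl fun x _ => ?_
      rw [intervalIntegral.integral_finsetSum]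
      intro y _
      exact (by fun_prop : Continuous fun l : ℝ => Complex.exp
        (((2 * Real.pi * (ph x - ph y) : ℝ) : ℂ) * Complex.I * l)).intervalIntegrable _ _
    · intro x _
      exact (by fun_prop : Continuous fun l : ℝ => ∑ y ∈ S, Complex.exp
        (((2 * Real.pi * (ph x - ph y) : ℝ) : ℂ) * Complex.I * l)).intervalIntegrable _ _
  have h3 : 0 ≤ ∫ l in a..b, ‖∑ x ∈ S, Complex.exp (((2 * Real.pi * (l * ph x) : ℝ) : ℂ) *
      Complex.I)‖ ^ 2 := intervalIntegral.integral_nonneg hab fun l _ => by positivity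
  calc _ = ‖((∫ l in a..b, ‖∑ x ∈ S, Complex.exp (((2 * Real.pi * (l * ph x) : ℝ) : ℂ) *
      Complex.I)‖ ^ 2 : ℝ) : ℂ)‖ := by rw [Complex.norm_real, Real.norm_of_nonneg h3]
    _ ≤ _ := by
      rw [h2]
      exact (norm_sum_le _ _).trans (sum_le_sum fun x _ => norm_sum_le _ _)

/-- The part of the exponential sum with large terms. -/
theorem large_part {k : ℕ} (hk : 3 ≤ k) {a b : ℝ} (hab : a ≤ b) {Y : ℕ} (hY : 1 ≤ Y)
    {α W : ℝ} (hW : 0 < W) (hWα : W ^ k * |α| = 1) :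
    ∫ l in a..b, ‖∑ x ∈ (Icc 1 Y).filter (fun x : ℕ => W < x),
      Complex.exp (((2 * Real.pi * (l * (α * (x : ℝ) ^ k)) : ℝ) : ℂ) * Complex.I)‖ ^ 2 ≤
      (b - a) * Y + 4 / Real.pi * W ^ 2 * (1 + Real.log Y) := by
  have hpi := Real.pi_pos
  have hY1 : (1 : ℝ) ≤ Y := by exact_mod_cast hY
  have hlog : 0 ≤ Real.log Y := Real.log_nonneg hY1
  have hα : 0 < |α| := by
    by_contra h
    have : |α| = 0 := le_antisymm (not_lt.1 h) (abs_nonneg _)
    rw [this, mul_zero] at hWα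
    exact zero_ne_one hWα
  set S := (Icc 1 Y).filter (fun x : ℕ => W < x) with hS
  refine (second_moment S (fun x => α * (x : ℝ) ^ k) hab).trans ?_
  have hrow : ∀ x ∈ S, ∑ y ∈ S, ‖∫ l in a..b, Complex.exp (((2 * Real.pi *
      (α * (x : ℝ) ^ k - α * (y : ℝ) ^ k) : ℝ) : ℂ) * Complex.I * l)‖ ≤
      (b - a) + 2 / Real.pi * W ^ 3 * (1 + Real.log Y) * (1 / (x : ℝ) ^ 2) := by
    intro x hx
    rw [← add_sum_erase S _ hx]
    refine add_le_add ?_ ?_
    · refine (intervalIntegral.norm_integral_le_of_norm_le_const (C := 1) fun l _ => ?_).trans ?_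
      · simp
      · rw [one_mul, abs_of_nonneg (by linarith)]
    · have hxS := hx
      rw [hS, mem_filter, mem_Icc] at hx
      have hx0 : (0 : ℝ) < x := by exact_mod_cast (by omega : 0 < x)
      have hterm : ∀ y ∈ S.erase x, ‖∫ l in a..b, Complex.exp (((2 * Real.pi *
          (α * (x : ℝ) ^ k - α * (y : ℝ) ^ k) : ℝ) : ℂ) * Complex.I * l)‖ ≤
          W ^ 3 / (Real.pi * (x : ℝ) ^ 2) * (1 / |(x : ℝ) - y|) := by
        intro y hy
        have hy' := hy
        rw [mem_erase, hS, mem_filter, mem_Icc] at hy'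
        have hxy : (x : ℝ) - y ≠ 0 := by
          rw [sub_ne_zero]
          exact_mod_cast hy'.1.symm
        have hxy0 : 0 < |(x : ℝ) - y| := abs_pos.2 hxy
        have h1 := pow_diff (k := k) (by omega) hx0.le (Nat.cast_nonneg y : (0 : ℝ) ≤ y)
        have h2 : W ^ (k - 3) * (x : ℝ) ^ 2 ≤ (x : ℝ) ^ (k - 1) := by
          rw [show k - 1 = (k - 3) + 2 by omega, pow_add]
          gcongr
          exact hx.2.le
        have h3 : |(x : ℝ) - y| * (W ^ (k - 3) * (x : ℝ) ^ 2) ≤ |(x : ℝ) ^ k - (y : ℝ) ^ k| :=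
          le_trans (by gcongr) h1
        have hθ : |α * (x : ℝ) ^ k - α * (y : ℝ) ^ k| = |α| * |(x : ℝ) ^ k - (y : ℝ) ^ k| := by
          rw [← mul_sub, abs_mul]
        have hθ0 : 0 < |α * (x : ℝ) ^ k - α * (y : ℝ) ^ k| := by
          rw [hθ]
          exact mul_pos hα (lt_of_lt_of_le (by positivity) h3)
        refine (norm_int_char (abs_pos.1 hθ0)).trans ?_
        rw [hθ]
        have h4 : W ^ k = W ^ (k - 3) * W ^ 3 := by
          rw [← pow_add]
          congr 1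
          omega
        have h5 : |α| * (W ^ (k - 3) * W ^ 3) = 1 := by rw [← h4, mul_comm]; exact hWα
        rw [div_mul_div_comm, div_le_div_iff₀ (by
          rw [hθ] at hθ0
          positivity) (by positivity), one_mul]
        calc Real.pi * (x : ℝ) ^ 2 * |(x : ℝ) - y|
            = (|α| * (W ^ (k - 3) * W ^ 3)) * (Real.pi * (x : ℝ) ^ 2 * |(x : ℝ) - y|) := by
              rw [h5, one_mul]
          _ = W ^ 3 * (Real.pi * (|α| * (|(x : ℝ) - y| * (W ^ (k - 3) * (x : ℝ) ^ 2)))) := by ring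
          _ ≤ W ^ 3 * (Real.pi * (|α| * |(x : ℝ) ^ k - (y : ℝ) ^ k|)) := by gcongr
          _ = _ := by ring
      calc _ ≤ ∑ y ∈ S.erase x, W ^ 3 / (Real.pi * (x : ℝ) ^ 2) * (1 / |(x : ℝ) - y|) :=
            sum_le_sum hterm
        _ ≤ ∑ y ∈ (Icc 1 Y).erase x, W ^ 3 / (Real.pi * (x : ℝ) ^ 2) * (1 / |(x : ℝ) - y|) := by
            refine sum_le_sum_of_subset_of_nonneg (erase_subset_erase _ (filter_subset _ _))
              fun y _ _ => by positivity
        _ = W ^ 3 / (Real.pi * (x : ℝ) ^ 2) * ∑ y ∈ (Icc 1 Y).erase x, 1 / |(x : ℝ) - y| := by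
            rw [mul_sum]
        _ ≤ W ^ 3 / (Real.pi * (x : ℝ) ^ 2) * (2 * (1 + Real.log Y)) := by
            gcongr
            exact harm_sum x (mem_Icc.2 hx.1)
        _ = _ := by field_simp
  refine (sum_le_sum hrow).trans ?_
  rw [sum_add_distrib, ← mul_sum, sum_const, nsmul_eq_mul]
  have hcard : (S.card : ℝ) ≤ Y := by
    have h1 : S.card ≤ (Icc 1 Y).card := card_le_card (filter_subset _ _)
    rw [Nat.card_Icc] at h1
    exact_mod_cast (by omega : S.card ≤ Y)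
  have htail := tail_sq hW Y
  refine add_le_add ?_ ?_
  · rw [mul_comm]
    exact mul_le_mul_of_nonneg_left hcard (by linarith)
  · calc 2 / Real.pi * W ^ 3 * (1 + Real.log Y) * ∑ x ∈ S, 1 / (x : ℝ) ^ 2
        ≤ 2 / Real.pi * W ^ 3 * (1 + Real.log Y) * (2 / W) := by gcongr
      _ = 4 / Real.pi * W ^ 2 * (1 + Real.log Y) := by
        field_simp
        ring

end MomP

open MomP

theorem mom : S_MOM := by
  intro k hk a b ha hab
  refine ⟨24 * (b - a) + 16, by linarith, fun Y hY α hα => ?_⟩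
  have hpi := Real.pi_pos
  have hY1 : (1 : ℝ) ≤ Y := by exact_mod_cast hY
  have hlog : 0 ≤ Real.log Y := Real.log_nonneg hY1
  have hα0 : 0 < |α| := abs_pos.2 hα
  have hk0 : (k : ℝ) ≠ 0 := by
    have : k ≠ 0 := by omega
    exact_mod_cast this
  set W : ℝ := |α| ^ (-(1 : ℝ) / k) with hWdef
  have hW : 0 < W := Real.rpow_pos_of_pos hα0 _
  have hWk : W ^ k * |α| = 1 := by
    rw [hWdef, ← Real.rpow_natCast, ← Real.rpow_mul hα0.le, div_mul_cancel₀ _ hk0,
      Real.rpow_neg_one, inv_mul_cancel₀ hα0.ne']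
  have hW2 : |α| ^ (-(2 : ℝ) / k) = W ^ 2 := by
    rw [hWdef, ← Real.rpow_natCast, ← Real.rpow_mul hα0.le]
    congr 1
    push_cast
    ring
  rw [hW2]
  set G : ℝ → ℂ := fun l => ∑ x ∈ (Icc 1 Y).filter (fun x : ℕ => W < x),
      Complex.exp (((2 * Real.pi * (l * (α * (x : ℝ) ^ k)) : ℝ) : ℂ) * Complex.I) with hG
  have hGc : Continuous G := by
    rw [hG]
    fun_prop
  have hbig := large_part hk hab.le hY hW hWk
  -- the pointwise bound
  have hpt : ∀ l : ℝ, ‖fsum k Y (l * α)‖ ^ 2 ≤ 3 * (1 + 4 * W ^ 2) + 12 * ‖G l‖ ^ 2 := by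
    intro l
    have h1 : fsum k Y (l * α) = 1 + 2 * ∑ x ∈ Icc 1 Y,
        Complex.exp (((2 * Real.pi * (l * (α * (x : ℝ) ^ k)) : ℝ) : ℂ) * Complex.I) := by
      unfold fsum
      have h2 := sum_symm (fun t : ℝ => Complex.exp (((2 * Real.pi * (l * α * t ^ k) : ℝ) : ℂ) *
        Complex.I)) Y
      rw [h2, zero_pow (by omega : k ≠ 0)]
      simp only [mul_zero, Complex.ofReal_zero, zero_mul, Complex.exp_zero, mul_assoc]
    have h2 : ∑ x ∈ Icc 1 Y,
        Complex.exp (((2 * Real.pi * (l * (α * (x : ℝ) ^ k)) : ℝ) : ℂ) * Complex.I) =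
        G l + ∑ x ∈ (Icc 1 Y).filter (fun x : ℕ => ¬ W < x),
        Complex.exp (((2 * Real.pi * (l * (α * (x : ℝ) ^ k)) : ℝ) : ℂ) * Complex.I) :=
      (sum_filter_add_sum_filter_not _ _ _).symm
    have h3 : ‖∑ x ∈ (Icc 1 Y).filter (fun x : ℕ => ¬ W < x),
        Complex.exp (((2 * Real.pi * (l * (α * (x : ℝ) ^ k)) : ℝ) : ℂ) * Complex.I)‖ ≤ W := by
      refine (norm_sum_le _ _).trans ?_
      simp_rw [Complex.norm_exp_ofReal_mul_I]
      rw [sum_const, nsmul_eq_mul, mul_one]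
      have h4 : ((Icc 1 Y).filter (fun x : ℕ => ¬ W < x)).card ≤ ⌊W⌋₊ := by
        have h5 : (Icc 1 Y).filter (fun x : ℕ => ¬ W < x) ⊆ Icc 1 ⌊W⌋₊ := by
          intro x hx
          rw [mem_filter, mem_Icc] at hx
          rw [mem_Icc]
          exact ⟨hx.1.1, Nat.le_floor (not_lt.1 hx.2)⟩
        have h6 := card_le_card h5
        rwa [Nat.card_Icc, Nat.add_sub_cancel] at h6
      calc (((Icc 1 Y).filter (fun x : ℕ => ¬ W < x)).card : ℝ) ≤ (⌊W⌋₊ : ℝ) := by
            exact_mod_cast h4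
        _ ≤ W := Nat.floor_le hW.le
    have h4 : ‖fsum k Y (l * α)‖ ≤ 1 + 2 * W + 2 * ‖G l‖ := by
      rw [h1, h2]
      refine (norm_add_le _ _).trans ?_
      rw [norm_one, norm_mul, Complex.norm_ofNat]
      have h5 := norm_add_le (G l) (∑ x ∈ (Icc 1 Y).filter (fun x : ℕ => ¬ W < x),
        Complex.exp (((2 * Real.pi * (l * (α * (x : ℝ) ^ k)) : ℝ) : ℂ) * Complex.I))
      linarith
    have h5 : 0 ≤ ‖G l‖ := norm_nonneg _
    calc ‖fsum k Y (l * α)‖ ^ 2 ≤ (1 + 2 * W + 2 * ‖G l‖) ^ 2 := by gcongr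
      _ ≤ 3 * (1 + 4 * W ^ 2) + 12 * ‖G l‖ ^ 2 := by
        nlinarith [sq_nonneg (1 - 2 * W), sq_nonneg (1 - 2 * ‖G l‖), sq_nonneg (2 * W - 2 * ‖G l‖)]
  have hfc : Continuous fun l : ℝ => ‖fsum k Y (l * α)‖ ^ 2 := by
    unfold fsum
    fun_prop
  have hmono : ∫ l in a..b, ‖fsum k Y (l * α)‖ ^ 2 ≤
      ∫ l in a..b, (3 * (1 + 4 * W ^ 2) + 12 * ‖G l‖ ^ 2) :=
    intervalIntegral.integral_mono_on hab.le (hfc.intervalIntegrable _ _)
      ((by fun_prop : Continuous fun l : ℝ => 3 * (1 + 4 * W ^ 2) +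
        12 * ‖G l‖ ^ 2).intervalIntegrable _ _) fun l _ => hpt l
  have hsplit : ∫ l in a..b, (3 * (1 + 4 * W ^ 2) + 12 * ‖G l‖ ^ 2) =
      (b - a) * (3 * (1 + 4 * W ^ 2)) + 12 * ∫ l in a..b, ‖G l‖ ^ 2 := by
    rw [intervalIntegral.integral_add (by simp)
      ((by fun_prop : Continuous fun l : ℝ => 12 * ‖G l‖ ^ 2).intervalIntegrable _ _),
      intervalIntegral.integral_const, smul_eq_mul, intervalIntegral.integral_const_mul]
  rw [hsplit] at hmono
  refine hmono.trans ?_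
  have h48 : 12 * (4 / Real.pi * W ^ 2 * (1 + Real.log Y)) ≤ 16 * W ^ 2 * (1 + Real.log Y) := by
    have h6 : 12 * (4 / Real.pi) ≤ 16 := by
      rw [← mul_div_assoc, div_le_iff₀ hpi]
      linarith [Real.pi_gt_three]
    calc 12 * (4 / Real.pi * W ^ 2 * (1 + Real.log Y))
        = 12 * (4 / Real.pi) * (W ^ 2 * (1 + Real.log Y)) := by ring
      _ ≤ 16 * (W ^ 2 * (1 + Real.log Y)) := by gcongr
      _ = _ := by ring
  have hD : 0 < b - a := by linarith
  have hW2 : 0 < W ^ 2 := by positivity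
  have e1 : (b - a) * (3 * (1 + 4 * W ^ 2)) ≤ 12 * (b - a) * (1 + Real.log Y) * (Y + W ^ 2) := by
    have h7 : 3 * (1 + 4 * W ^ 2) ≤ 12 * ((1 + Real.log Y) * (Y + W ^ 2)) := by
      nlinarith [mul_nonneg hlog (by positivity : (0 : ℝ) ≤ Y + W ^ 2)]
    calc (b - a) * (3 * (1 + 4 * W ^ 2)) ≤ (b - a) * (12 * ((1 + Real.log Y) * (Y + W ^ 2))) := by
          gcongr
      _ = _ := by ring
  have e2 : 12 * ((b - a) * Y) ≤ 12 * (b - a) * (1 + Real.log Y) * (Y + W ^ 2) := by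
    have h7 : (Y : ℝ) ≤ (1 + Real.log Y) * (Y + W ^ 2) := by
      nlinarith [mul_nonneg hlog (by positivity : (0 : ℝ) ≤ Y + W ^ 2)]
    calc 12 * ((b - a) * Y) ≤ 12 * ((b - a) * ((1 + Real.log Y) * (Y + W ^ 2))) := by gcongr
      _ = _ := by ring
  have e3 : 16 * W ^ 2 * (1 + Real.log Y) ≤ 16 * (1 + Real.log Y) * (Y + W ^ 2) := by
    have h7 : 0 ≤ 16 * (1 + Real.log Y) * Y := by positivity
    nlinarith
  calc (b - a) * (3 * (1 + 4 * W ^ 2)) + 12 * ∫ l in a..b, ‖G l‖ ^ 2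
      ≤ (b - a) * (3 * (1 + 4 * W ^ 2)) +
        12 * ((b - a) * Y + 4 / Real.pi * W ^ 2 * (1 + Real.log Y)) := by gcongr
    _ = (b - a) * (3 * (1 + 4 * W ^ 2)) + 12 * ((b - a) * Y) +
        12 * (4 / Real.pi * W ^ 2 * (1 + Real.log Y)) := by ring
    _ ≤ 12 * (b - a) * (1 + Real.log Y) * (Y + W ^ 2) +
        12 * (b - a) * (1 + Real.log Y) * (Y + W ^ 2) +
        16 * (1 + Real.log Y) * (Y + W ^ 2) := by linarith
    _ = (24 * (b - a) + 16) * (1 + Real.log Y) * (Y + W ^ 2) := by ring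

end Pool.Agent.W99.KM
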